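import Pool.Agent.H75.EK.Main

/-!
If the line is a countable union of lightface `Σ¹₂` rationally independent sets, with no
uniformity, then every real is constructible.
-/

namespace Pool.Agent.Results.MP_f4f5da_lc.RealsInL

open Pool.Agent.H75.EK Set

/-- If the real line is the union of sets `A 0, A 1, …`, each lightface `Σ¹₂` (the definitions may
depend on the index in any way) and each linearly independent over `ℚ`, then every real is
constructible: every element of Baire space, and every Dedekind cut, belongs to `L`. -/
theorem result (A : ℕ → Set ℝ) (hdef : ∀ n, IsSigma12Real (A n))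
    (hind : ∀ n, LinearIndepOn ℚ id (A n)) (hcov : ⋃ n, A n = Set.univ) :
    (∀ f : ℕ → ℕ, InL (graphSet f)) ∧ ∀ x : ℝ, InL (cutSet x) :=
  reals_constructible hdef hcov hind

end Pool.Agent.Results.MP_f4f5da_lc.RealsInL
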